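import Mathlib
import Pool.Agent.Lib.MP_5f370d_co.Reduce

set_option autoImplicit false

/-!
# No plane convex body is covered by five homothets of ratios smaller than 1/2

Idea of the proof. After a small perturbation the body is strictly convex, so every direction has
a unique support point. The directions whose support point lies in a given homothet of ratio
smaller than `1/2` form an arc of length less than `π`; five such arcs cover the circle, which gives
five directions whose support points are consecutively at relative distance less than `1`. In the
circumscribed pentagon with these outer normals the deviations of the support points from
the midpoints of the sides then satisfy a cyclic system of strict inequalities which contradicts
the product of the five Pluecker inequalities between the edge directions.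
-/

namespace Pool.Agent.Results.MP_5f370d_co.NoFiveCover

open Pool.Agent.Lib.MP_5f370d_co

/-- No plane convex body is covered by five homothetic copies of itself with positive ratios
smaller than `1/2`. -/
theorem result : ∀ K : Set Plane, IsConvexBody K → ¬ CoverableBelowHalf 5 K :=
  fun K hK => not_coverable_five K hK

end Pool.Agent.Results.MP_5f370d_co.NoFiveCover
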