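import Mathlib

/-!
# A plane convex body covered by six homothets of ratio 12/25 < 1/2

The body is the hexagon with (barycentric type) vertices
`(6,1,1), (4,4,0), (1,6,1), (0,4,4), (1,1,6), (4,0,4)`, written in the coordinates
`(a, b)` with `c = 8 - a - b`.
-/

namespace Pool.Agent.Results.MP_5f370d_co.SixCover

/-- The Euclidean plane. -/
abbrev Plane : Type := EuclideanSpace ℝ (Fin 2)

/-- A plane convex body: a compact convex set with nonempty interior. -/
def IsPlaneConvexBody (K : Set Plane) : Prop :=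
  IsCompact K ∧ Convex ℝ K ∧ (interior K).Nonempty

/-- `K` is `m`-coverable below `1/2`: it is covered by `m` homothetic copies
`x i + lam i • K` of itself whose ratios `lam i` are positive and less than `1/2`. -/
def CoverableBelowHalf (m : ℕ) (K : Set Plane) : Prop :=
  ∃ (x : Fin m → Plane) (lam : Fin m → ℝ), (∀ i, 0 < lam i ∧ lam i < 1 / 2) ∧
    K ⊆ ⋃ i, (fun k => x i + lam i • k) '' K

/-- The six inequalities of the hexagon in barycentric type coordinates. -/
def InH (a b c : ℝ) : Prop :=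
  0 + a - b - 5 * c ≤ 0 ∧ 0 - a + b - 5 * c ≤ 0 ∧ 0 - 5 * a + b - c ≤ 0 ∧
  0 - 5 * a - b + c ≤ 0 ∧ 0 - a - 5 * b + c ≤ 0 ∧ 0 + a - 5 * b - c ≤ 0

lemma InH.swap12 {a b c : ℝ} (h : InH a b c) : InH b a c := by
  obtain ⟨h0, h1, h2, h3, h4, h5⟩ := h
  refine ⟨?_, ?_, ?_, ?_, ?_, ?_⟩ <;> linarith

lemma InH.swap23 {a b c : ℝ} (h : InH a b c) : InH a c b := by
  obtain ⟨h0, h1, h2, h3, h4, h5⟩ := h
  refine ⟨?_, ?_, ?_, ?_, ?_, ?_⟩ <;> linarith

/-- The hexagon. -/
def H : Set Plane := {p | InH (p 0) (p 1) (8 - p 0 - p 1)}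

/-- In the sector `c ≤ b ≤ a` two of the six copies cover the hexagon. -/
lemma sector (a b c : ℝ) (hs : a + b + c = 8) (hab : b ≤ a) (hbc : c ≤ b) (hK : InH a b c) :
    InH (a - 88 / 25) (b - 8 / 25) (c - 8 / 25) ∨ InH (a - 52 / 25) (b - 52 / 25) (c - 0) := by
  obtain ⟨k0, k1, k2, k3, k4, k5⟩ := hK
  rcases le_or_gt (0 - (a - 88 / 25) + (b - 8 / 25) - 5 * (c - 8 / 25)) 0 with h0 | h0
  · rcases le_or_gt (0 - 5 * (a - 88 / 25) + (b - 8 / 25) - (c - 8 / 25)) 0 with h2 | h2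
    · left
      refine ⟨?_, ?_, ?_, ?_, ?_, ?_⟩ <;> linarith
    · right
      refine ⟨?_, ?_, ?_, ?_, ?_, ?_⟩ <;> linarith
  · right
    refine ⟨?_, ?_, ?_, ?_, ?_, ?_⟩ <;> linarith

/-- The six copies cover the hexagon. -/
lemma cover (a b c : ℝ) (hs : a + b + c = 8) (hK : InH a b c) :
    InH (a - 88 / 25) (b - 8 / 25) (c - 8 / 25) ∨
    InH (a - 8 / 25) (b - 88 / 25) (c - 8 / 25) ∨
    InH (a - 8 / 25) (b - 8 / 25) (c - 88 / 25) ∨
    InH (a - 52 / 25) (b - 52 / 25) (c - 0) ∨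
    InH (a - 0) (b - 52 / 25) (c - 52 / 25) ∨
    InH (a - 52 / 25) (b - 0) (c - 52 / 25) := by
  rcases le_total b a with hab | hab <;> rcases le_total c b with hbc | hbc <;>
    rcases le_total c a with hac | hac
  · -- a, b, c
    rcases sector a b c (by linarith) hab hbc hK with h | h
    · exact Or.inl h
    · exact Or.inr (Or.inr (Or.inr (Or.inl h)))
  · rcases sector a b c (by linarith) hab hbc hK with h | h
    · exact Or.inl h
    · exact Or.inr (Or.inr (Or.inr (Or.inl h)))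
  · -- a, c, b
    rcases sector a c b (by linarith) hac hbc hK.swap23 with h | h
    · exact Or.inl h.swap23
    · exact Or.inr (Or.inr (Or.inr (Or.inr (Or.inr h.swap23))))
  · -- c, a, b
    rcases sector c a b (by linarith) hac hab (hK.swap23.swap12) with h | h
    · exact Or.inr (Or.inr (Or.inl (h.swap12.swap23)))
    · exact Or.inr (Or.inr (Or.inr (Or.inr (Or.inr (h.swap12.swap23)))))
  · -- b, a, c
    rcases sector b a c (by linarith) hab hac hK.swap12 with h | h
    · exact Or.inr (Or.inl h.swap12)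
    · exact Or.inr (Or.inr (Or.inr (Or.inl h.swap12)))
  · -- b, c, a
    rcases sector b c a (by linarith) hbc hac (hK.swap12.swap23) with h | h
    · exact Or.inr (Or.inl (h.swap23.swap12))
    · exact Or.inr (Or.inr (Or.inr (Or.inr (Or.inl (h.swap23.swap12)))))
  · -- c, b, a
    rcases sector c b a (by linarith) hbc hab (hK.swap12.swap23.swap12) with h | h
    · exact Or.inr (Or.inr (Or.inl (h.swap12.swap23.swap12)))
    · exact Or.inr (Or.inr (Or.inr (Or.inr (Or.inl (h.swap12.swap23.swap12)))))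
  · rcases sector c b a (by linarith) hbc hab (hK.swap12.swap23.swap12) with h | h
    · exact Or.inr (Or.inr (Or.inl (h.swap12.swap23.swap12)))
    · exact Or.inr (Or.inr (Or.inr (Or.inr (Or.inl (h.swap12.swap23.swap12)))))

lemma InH.smul {a b c t : ℝ} (ht : 0 < t) (h : InH a b c) : InH (t * a) (t * b) (t * c) := by
  obtain ⟨h0, h1, h2, h3, h4, h5⟩ := h
  refine ⟨?_, ?_, ?_, ?_, ?_, ?_⟩
  · have := mul_nonpos_of_nonneg_of_nonpos ht.le h0
    linarith
  · have := mul_nonpos_of_nonneg_of_nonpos ht.le h1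
    linarith
  · have := mul_nonpos_of_nonneg_of_nonpos ht.le h2
    linarith
  · have := mul_nonpos_of_nonneg_of_nonpos ht.le h3
    linarith
  · have := mul_nonpos_of_nonneg_of_nonpos ht.le h4
    linarith
  · have := mul_nonpos_of_nonneg_of_nonpos ht.le h5
    linarith

lemma cont (i : Fin 2) : Continuous (fun p : Plane => p i) := by fun_prop

lemma isClosed_H : IsClosed H := by
  have h0 := cont 0
  have h1 := cont 1
  have e : H = {p : Plane | 0 + p 0 - p 1 - 5 * (8 - p 0 - p 1) ≤ 0} ∩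
      ({p : Plane | 0 - p 0 + p 1 - 5 * (8 - p 0 - p 1) ≤ 0} ∩
      ({p : Plane | 0 - 5 * p 0 + p 1 - (8 - p 0 - p 1) ≤ 0} ∩
      ({p : Plane | 0 - 5 * p 0 - p 1 + (8 - p 0 - p 1) ≤ 0} ∩
      ({p : Plane | 0 - p 0 - 5 * p 1 + (8 - p 0 - p 1) ≤ 0} ∩
      {p : Plane | 0 + p 0 - 5 * p 1 - (8 - p 0 - p 1) ≤ 0})))) := rfl
  rw [e]
  refine (isClosed_le ?_ continuous_const).inter ((isClosed_le ?_ continuous_const).inter
    ((isClosed_le ?_ continuous_const).inter ((isClosed_le ?_ continuous_const).inter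
    ((isClosed_le ?_ continuous_const).inter (isClosed_le ?_ continuous_const))))) <;> fun_prop

lemma coords {a b c : ℝ} (hs : a + b + c = 8) (h : InH a b c) : 0 ≤ a ∧ 0 ≤ b ∧ a ≤ 8 ∧ b ≤ 8 := by
  obtain ⟨h0, h1, h2, h3, h4, h5⟩ := h
  refine ⟨?_, ?_, ?_, ?_⟩ <;> linarith

lemma isBounded_H : Bornology.IsBounded H := by
  refine (Metric.isBounded_closedBall (x := (0 : Plane)) (r := 12)).subset ?_
  intro p hp
  obtain ⟨h0, h1, h2, h3⟩ := coords (by ring) hp
  rw [Metric.mem_closedBall, dist_zero_right, EuclideanSpace.norm_eq, Fin.sum_univ_two]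
  rw [Real.sqrt_le_left (by norm_num)]
  simp only [Real.norm_eq_abs, sq_abs]
  nlinarith

lemma convex_H : Convex ℝ H := by
  intro p hp q hq s t hs ht hst
  obtain ⟨h0, h1, h2, h3, h4, h5⟩ := hp
  obtain ⟨g0, g1, g2, g3, g4, g5⟩ := hq
  have e0 : (s • p + t • q) 0 = s * p 0 + t * q 0 := by simp
  have e1 : (s • p + t • q) 1 = s * p 1 + t * q 1 := by simp
  have e2 : 8 - (s * p 0 + t * q 0) - (s * p 1 + t * q 1)
      = s * (8 - p 0 - p 1) + t * (8 - q 0 - q 1) := by
    have : t = 1 - s := by linarith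
    subst this
    ring
  change InH ((s • p + t • q) 0) ((s • p + t • q) 1) (8 - (s • p + t • q) 0 - (s • p + t • q) 1)
  rw [e0, e1, e2]
  refine ⟨?_, ?_, ?_, ?_, ?_, ?_⟩
  · have i1 := mul_nonpos_of_nonneg_of_nonpos hs h0
    have i2 := mul_nonpos_of_nonneg_of_nonpos ht g0
    linarith
  · have i1 := mul_nonpos_of_nonneg_of_nonpos hs h1
    have i2 := mul_nonpos_of_nonneg_of_nonpos ht g1
    linarith
  · have i1 := mul_nonpos_of_nonneg_of_nonpos hs h2
    have i2 := mul_nonpos_of_nonneg_of_nonpos ht g2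
    linarith
  · have i1 := mul_nonpos_of_nonneg_of_nonpos hs h3
    have i2 := mul_nonpos_of_nonneg_of_nonpos ht g3
    linarith
  · have i1 := mul_nonpos_of_nonneg_of_nonpos hs h4
    have i2 := mul_nonpos_of_nonneg_of_nonpos ht g4
    linarith
  · have i1 := mul_nonpos_of_nonneg_of_nonpos hs h5
    have i2 := mul_nonpos_of_nonneg_of_nonpos ht g5
    linarith

lemma interior_H : (interior H).Nonempty := by
  have h0 := cont 0
  have h1 := cont 1
  let O : Set Plane := {p : Plane | 0 + p 0 - p 1 - 5 * (8 - p 0 - p 1) < 0} ∩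
      ({p : Plane | 0 - p 0 + p 1 - 5 * (8 - p 0 - p 1) < 0} ∩
      ({p : Plane | 0 - 5 * p 0 + p 1 - (8 - p 0 - p 1) < 0} ∩
      ({p : Plane | 0 - 5 * p 0 - p 1 + (8 - p 0 - p 1) < 0} ∩
      ({p : Plane | 0 - p 0 - 5 * p 1 + (8 - p 0 - p 1) < 0} ∩
      {p : Plane | 0 + p 0 - 5 * p 1 - (8 - p 0 - p 1) < 0}))))
  have hO : IsOpen O := by
    refine (isOpen_lt ?_ continuous_const).inter ((isOpen_lt ?_ continuous_const).inter
    ((isOpen_lt ?_ continuous_const).inter ((isOpen_lt ?_ continuous_const).inter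
    ((isOpen_lt ?_ continuous_const).inter (isOpen_lt ?_ continuous_const))))) <;> fun_prop
  have hOH : O ⊆ H := by
    rintro p ⟨h0, h1, h2, h3, h4, h5⟩
    exact ⟨le_of_lt h0, le_of_lt h1, le_of_lt h2, le_of_lt h3, le_of_lt h4, le_of_lt h5⟩
  refine ⟨!₂[8 / 3, 8 / 3], interior_maximal hOH hO ?_⟩
  refine ⟨?_, ?_, ?_, ?_, ?_, ?_⟩ <;> simp <;> norm_num

/-- A point of the hexagon lying in a translate is in the corresponding homothet. -/
lemma mem_image {p : Plane} {oa ob oc : ℝ} (ho : oa + ob + oc = 104 / 25)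
    (h : InH (p 0 - oa) (p 1 - ob) ((8 - p 0 - p 1) - oc)) :
    p ∈ (fun k : Plane => !₂[oa, ob] + (12 / 25 : ℝ) • k) '' H := by
  refine ⟨(25 / 12 : ℝ) • (p - !₂[oa, ob]), ?_, ?_⟩
  · have e0 : ((25 / 12 : ℝ) • (p - !₂[oa, ob])) 0 = (25 / 12) * (p 0 - oa) := by simp
    have e1 : ((25 / 12 : ℝ) • (p - !₂[oa, ob])) 1 = (25 / 12) * (p 1 - ob) := by simp
    have e2 : 8 - (25 / 12) * (p 0 - oa) - (25 / 12) * (p 1 - ob)
        = (25 / 12) * ((8 - p 0 - p 1) - oc) := by
      have : oc = 104 / 25 - oa - ob := by linarith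
      subst this
      ring
    change InH (((25 / 12 : ℝ) • (p - !₂[oa, ob])) 0) (((25 / 12 : ℝ) • (p - !₂[oa, ob])) 1)
      (8 - ((25 / 12 : ℝ) • (p - !₂[oa, ob])) 0 - ((25 / 12 : ℝ) • (p - !₂[oa, ob])) 1)
    rw [e0, e1, e2]
    exact h.smul (by norm_num)
  · simp only [smul_smul]
    norm_num

/-- There is a plane convex body that is covered by six homothetic copies of itself, each
with a positive ratio smaller than `1/2`. -/
theorem result : ∃ K : Set Plane, IsPlaneConvexBody K ∧ CoverableBelowHalf 6 K := by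
  refine ⟨H, ⟨Metric.isCompact_of_isClosed_isBounded isClosed_H isBounded_H, convex_H,
    interior_H⟩, ![!₂[88 / 25, 8 / 25], !₂[8 / 25, 88 / 25], !₂[8 / 25, 8 / 25],
      !₂[52 / 25, 52 / 25], !₂[0, 52 / 25], !₂[52 / 25, 0]], fun _ => 12 / 25, ?_, ?_⟩
  · intro i
    norm_num
  · intro p hp
    rw [Set.mem_iUnion]
    rcases cover (p 0) (p 1) (8 - p 0 - p 1) (by ring) hp with h | h | h | h | h | h
    · exact ⟨0, mem_image (by norm_num) h⟩
    · exact ⟨1, mem_image (by norm_num) h⟩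
    · exact ⟨2, mem_image (by norm_num) h⟩
    · exact ⟨3, mem_image (by norm_num) h⟩
    · exact ⟨4, mem_image (by norm_num) h⟩
    · exact ⟨5, mem_image (by norm_num) h⟩

end Pool.Agent.Results.MP_5f370d_co.SixCover
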